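import Mathlib

/-!
Counterexample to the approximation of Fuglede-Kadison determinants by quotients:
the integer Heisenberg group, A = 1 + 5 (2 - x - x^(-1)) y, two chains of finite quotients.
-/

set_option autoImplicit false
open MeasureTheory Filter Topology Set
open scoped Classical

namespace Pool.Agent.H987D

/-- Coefficient at the unit of (b b^*)^n in the integral group ring. -/
noncomputable def mom {H : Type} [Group H] (b : H →₀ ℤ) (n : ℕ) : ℤ :=
  ((MonoidAlgebra.ofCoeff b * MonoidAlgebra.ofCoeff (b.mapDomain (fun g => g⁻¹)) :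
    MonoidAlgebra ℤ H) ^ n).coeff 1

/-- The iterated convolution of the frozen statement, for r = s = 1, at the unit. -/
noncomputable def iter1 {H : Type} [Group H] (a : Fin 1 → Fin 1 → H → ℤ) (n : ℕ) : ℝ :=
  ∑ k : Fin 1, (((Nat.iterate
          (fun (X : Fin 1 → Fin 1 → H → ℤ) => fun (k₁ k₂ : Fin 1) (g : H) =>
            ∑ k' : Fin 1, ∑ᶠ h : H, X k₁ k' h *
              ∑ l : Fin 1, ∑ᶠ t : H, a k' l t * a k₂ l ((h⁻¹ * g)⁻¹ * t))
          n
          (fun (k₁ k₂ : Fin 1) (g : H) => if k₁ = k₂ ∧ g = 1 then (1 : ℤ) else 0))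
          k k 1 : ℤ) : ℝ)

/-- The matrix of right multiplication by b on a finite group. -/
noncomputable def RM {H : Type} [Group H] (b : H →₀ ℤ) : Matrix H H ℝ :=
  Matrix.of fun g h => (b (g⁻¹ * h) : ℝ)

/-- The l1 norm of an element of the integral group ring. -/
noncomputable def l1 {H : Type} (b : H →₀ ℤ) : ℝ := ∑ g ∈ b.support, |(b g : ℝ)|

/-- The integer Heisenberg group. -/
@[ext] structure HZ : Type where
  x : ℤ
  y : ℤ
  z : ℤ

namespace HZ
instance : Mul HZ := ⟨fun g h => ⟨g.x + h.x, g.y + h.y, g.z + h.z + g.y * h.x⟩⟩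
instance : One HZ := ⟨⟨0, 0, 0⟩⟩
instance : Inv HZ := ⟨fun g => ⟨-g.x, -g.y, -g.z + g.y * g.x⟩⟩
@[simp] lemma mul_x (g h : HZ) : (g * h).x = g.x + h.x := rfl
@[simp] lemma mul_y (g h : HZ) : (g * h).y = g.y + h.y := rfl
@[simp] lemma mul_z (g h : HZ) : (g * h).z = g.z + h.z + g.y * h.x := rfl
@[simp] lemma one_x : (1 : HZ).x = 0 := rfl
@[simp] lemma one_y : (1 : HZ).y = 0 := rfl
@[simp] lemma one_z : (1 : HZ).z = 0 := rfl
@[simp] lemma inv_x (g : HZ) : (g⁻¹).x = -g.x := rfl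
@[simp] lemma inv_y (g : HZ) : (g⁻¹).y = -g.y := rfl
@[simp] lemma inv_z (g : HZ) : (g⁻¹).z = -g.z + g.y * g.x := rfl
instance : Group HZ :=
  Group.ofLeftAxioms (by intro a b c; ext <;> simp <;> ring) (by intro a; ext <;> simp)
    (by intro a; ext <;> simp)
end HZ

/-- The quotient of the Heisenberg group by x^(L n), y^n, z^n. -/
@[ext] structure HQ (L n : ℕ) : Type where
  x : ZMod (L * n)
  y : ZMod n
  z : ZMod n

/-- The reduction from ZMod (L n) to ZMod n. -/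
def rd (L n : ℕ) : ZMod (L * n) →+* ZMod n := ZMod.castHom (dvd_mul_left n L) (ZMod n)

namespace HQ
variable {L n : ℕ}
instance : Mul (HQ L n) := ⟨fun g h => ⟨g.x + h.x, g.y + h.y, g.z + h.z + g.y * rd L n h.x⟩⟩
instance : One (HQ L n) := ⟨⟨0, 0, 0⟩⟩
instance : Inv (HQ L n) := ⟨fun g => ⟨-g.x, -g.y, -g.z + g.y * rd L n g.x⟩⟩
@[simp] lemma mul_x (g h : HQ L n) : (g * h).x = g.x + h.x := rfl
@[simp] lemma mul_y (g h : HQ L n) : (g * h).y = g.y + h.y := rfl
@[simp] lemma mul_z (g h : HQ L n) : (g * h).z = g.z + h.z + g.y * rd L n h.x := rfl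
@[simp] lemma one_x : (1 : HQ L n).x = 0 := rfl
@[simp] lemma one_y : (1 : HQ L n).y = 0 := rfl
@[simp] lemma one_z : (1 : HQ L n).z = 0 := rfl
@[simp] lemma inv_x (g : HQ L n) : (g⁻¹).x = -g.x := rfl
@[simp] lemma inv_y (g : HQ L n) : (g⁻¹).y = -g.y := rfl
@[simp] lemma inv_z (g : HQ L n) : (g⁻¹).z = -g.z + g.y * rd L n g.x := rfl
instance : Group (HQ L n) :=
  Group.ofLeftAxioms (by intro a b c; ext <;> simp <;> ring) (by intro a; ext <;> simp)
    (by intro a; ext <;> simp)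

/-- HQ as a product: (y, (x, z)). -/
def eqv (L n : ℕ) : HQ L n ≃ ZMod n × (ZMod (L * n) × ZMod n) where
  toFun g := (g.y, (g.x, g.z))
  invFun p := ⟨p.2.1, p.1, p.2.2⟩
  left_inv _ := rfl
  right_inv _ := rfl
end HQ

/-- The quotient map. -/
def ph (L n : ℕ) : HZ →* HQ L n where
  toFun g := ⟨(g.x : ZMod (L * n)), (g.y : ZMod n), (g.z : ZMod n)⟩
  map_one' := by ext <;> simp
  map_mul' := by intro g h; ext <;> simp

/-- The element 1 + 5 (2 - x - x^(-1)) y of the group ring of the Heisenberg group. -/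
noncomputable def aZ : HZ →₀ ℤ :=
  Finsupp.single 1 1 + Finsupp.single ⟨0, 1, 0⟩ 10 + Finsupp.single ⟨1, 1, 0⟩ (-5)
    + Finsupp.single ⟨-1, 1, 0⟩ (-5)

/-- Its image in the group ring of HQ. -/
noncomputable def aQ (L n : ℕ) : HQ L n →₀ ℤ :=
  Finsupp.single 1 1 + Finsupp.single ⟨0, 1, 0⟩ 10 + Finsupp.single ⟨1, 1, 0⟩ (-5)
    + Finsupp.single ⟨-1, 1, 0⟩ (-5)

/-- The weight at q for the character (u, v). -/
noncomputable def wt (L n : ℕ) (u : ZMod (L * n)) (v q : ZMod n) : ℝ :=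
  5 * (2 - 2 * Real.cos (2 * Real.pi * ((u.val : ℝ) / (L * n : ℕ) + ((v * q).val : ℝ) / n)))

end Pool.Agent.H987D
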