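import Pool.Agent.H987D.Defs

/-!
Statements of the parts (spec).
-/

set_option autoImplicit false
open MeasureTheory Filter Topology Set
open scoped Classical

namespace Pool.Agent.H987D

/-- T1a: the iterated convolution is the moment in the group ring. -/
def T1aP : Prop := ∀ (H : Type) [Group H] (a : Fin 1 → Fin 1 → (H →₀ ℤ)) (n : ℕ),
  iter1 (fun i j => (a i j : H → ℤ)) n = (mom (a 0 0) n : ℝ)

/-- T1b: moments of the images stabilise along a descending sequence with trivial intersection. -/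
def T1bP : Prop := ∀ (G : Type) [Group G] (N : ℕ → Subgroup G) [∀ i, (N i).Normal],
  (∀ i j, i ≤ j → N j ≤ N i) → (⨅ i, N i) = ⊥ → ∀ (a : G →₀ ℤ) (n : ℕ),
  ∀ᶠ i in atTop, mom (a.mapDomain (QuotientGroup.mk' (N i))) n = mom a n

/-- T1c: the l1 norm does not grow under mapDomain. -/
def T1cP : Prop := ∀ (G H : Type) (f : G → H) (a : G →₀ ℤ), l1 (a.mapDomain f) ≤ l1 a

/-- T2: the spectral measure of b b^* for a finite group. -/
def T2P : Prop := ∀ (H : Type) [Group H] [Fintype H] (b : H →₀ ℤ) (C : ℝ), l1 b ^ 2 ≤ C →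
  (RM b).det ≠ 0 →
  ∃ ν : Measure ℝ, IsProbabilityMeasure ν ∧ ν (Icc 0 C)ᶜ = 0 ∧
    (∀ n : ℕ, ∫ x, x ^ n ∂ν = (mom b n : ℝ)) ∧ IntegrableOn Real.log (Ioi 0) ν ∧
    ∫ x in Ioi 0, Real.log x ∂ν = 2 * Real.log |(RM b).det| / (Nat.card H : ℝ)

/-- T3: limit of measures on a compact interval with eventually constant moments. -/
def T3P : Prop := ∀ (C : ℝ) (ν : ℕ → Measure ℝ), (∀ i, IsProbabilityMeasure (ν i)) →
  (∀ i, ν i (Icc 0 C)ᶜ = 0) → ∀ (m : ℕ → ℝ),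
  (∀ n : ℕ, ∀ᶠ i in atTop, ∫ x, x ^ n ∂(ν i) = m n) →
  ∃ μ : Measure ℝ, IsProbabilityMeasure μ ∧ μ (Icc 0 C)ᶜ = 0 ∧ ∀ n : ℕ, ∫ x, x ^ n ∂μ = m n

/-- T4: determinant of one plus a weighted cyclic shift of odd length. -/
def T4P : Prop := ∀ (n : ℕ) [NeZero n], 1 < n → Odd n → ∀ (f : ZMod n → ℂ),
  (Matrix.of fun i j : ZMod n => (if i = j then (1 : ℂ) else 0) + (if i + 1 = j then f i else 0)).det
    = 1 + ∏ q, f q

instance (L n : ℕ) [NeZero (L * n)] [NeZero n] : Fintype (HQ L n) := Fintype.ofEquiv _ (HQ.eqv L n).symm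

/-- T5: the group determinant. -/
def T5P : Prop := ∀ (L n : ℕ) [NeZero (L * n)] [NeZero n], 1 < n → Odd n →
  (RM (aQ L n)).det = ∏ p : ZMod (L * n) × ZMod n, (1 + ∏ q : ZMod n, wt L n p.1 p.2 q)

/-- T6a: first chain, n = 5^(j+1), L = 1: upper bound. -/
def T6aP : Prop := ∀ (n j : ℕ) [NeZero (1 * n)] [NeZero n], n = 5 ^ (j + 1) →
  (∏ p : ZMod (1 * n) × ZMod n, (1 + ∏ q : ZMod n, wt 1 n p.1 p.2 q)) ≤ (21 : ℝ) ^ (n * n * (5 ^ j))

/-- T6b: second chain, n = 5^(j+1), L = 2: lower bound. -/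
def T6bP : Prop := ∀ (n j : ℕ) [NeZero (2 * n)] [NeZero n], n = 5 ^ (j + 1) →
  (5 : ℝ) ^ (n * n * (4 * 5 ^ j)) ≤ ∏ p : ZMod (2 * n) × ZMod n, (1 + ∏ q : ZMod n, wt 2 n p.1 p.2 q)

/-- T7a: the two chains (L = 1, 2) descend. -/
def T7aP : Prop := ∀ (L i j : ℕ), i ≤ j → (ph L (5 ^ (j + 1))).ker ≤ (ph L (5 ^ (i + 1))).ker

/-- T7b: trivial intersection. -/
def T7bP : Prop := ∀ (L : ℕ), 0 < L → (⨅ j : ℕ, (ph L (5 ^ (j + 1))).ker) = ⊥

/-- T7c: the determinant over the quotient group is the one over HQ, and the order. -/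
def T7cP : Prop := ∀ (L n : ℕ) [NeZero (L * n)] [NeZero n] [Fintype (HZ ⧸ (ph L n).ker)],
  (RM (aZ.mapDomain (QuotientGroup.mk' (ph L n).ker))).det = (RM (aQ L n)).det ∧
  Nat.card (HZ ⧸ (ph L n).ker) = L * n * n * n ∧ Finite (HZ ⧸ (ph L n).ker)

end Pool.Agent.H987D
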