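import Pool.Agent.H987D.Stm

/-!
Part T1a: the iterated convolution is the moment in the group ring.
-/

set_option autoImplicit false
open MeasureTheory Filter Topology Set
open scoped Classical

namespace Pool.Agent.H987D.T1a

variable {H : Type} [Group H]

/-- the finsum form of the convolution -/
lemma conv (x y : MonoidAlgebra ℤ H) (g : H) :
    (x * y).coeff g = ∑ᶠ h : H, x.coeff h * y.coeff (h⁻¹ * g) := by
  rw [MonoidAlgebra.coeff_mul_apply_left, Finsupp.sum]
  rw [finsum_eq_sum_of_support_subset]
  intro h hh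
  simp only [Function.mem_support, ne_eq, Finset.mem_coe, Finsupp.mem_support_iff] at hh ⊢
  intro h0
  exact hh (by rw [h0, zero_mul])

/-- the coefficients of the adjoint -/
lemma mapInv (b : H →₀ ℤ) (g : H) : (b.mapDomain (fun g => g⁻¹)) g = b g⁻¹ := by
  have h : (fun g : H => g⁻¹) = (Equiv.inv H : H → H) := rfl
  rw [h, Finsupp.mapDomain_equiv_apply]
  rfl

theorem main : T1aP := by
  intro H _ a n
  set P : MonoidAlgebra ℤ H := MonoidAlgebra.ofCoeff (a 0 0) *
    MonoidAlgebra.ofCoeff ((a 0 0).mapDomain (fun g => g⁻¹)) with hP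
  have key : ∀ n : ℕ, (Nat.iterate
          (fun (X : Fin 1 → Fin 1 → H → ℤ) => fun (k₁ k₂ : Fin 1) (g : H) =>
            ∑ k' : Fin 1, ∑ᶠ h : H, X k₁ k' h *
              ∑ l : Fin 1, ∑ᶠ t : H, (a k' l : H → ℤ) t * (a k₂ l : H → ℤ) ((h⁻¹ * g)⁻¹ * t))
          n
          (fun (k₁ k₂ : Fin 1) (g : H) => if k₁ = k₂ ∧ g = 1 then (1 : ℤ) else 0)) =
        fun _ _ g => (P ^ n).coeff g := by
    intro n
    induction n with
    | zero =>
      funext k₁ k₂ g
      have h1 : k₁ = 0 := Subsingleton.elim _ _
      have h2 : k₂ = 0 := Subsingleton.elim _ _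
      subst h1 h2
      simp only [Function.iterate_zero, id_eq, true_and, pow_zero, MonoidAlgebra.one_def]
      simp [Finsupp.single_apply, eq_comm]
    | succ n ih =>
      rw [Function.iterate_succ_apply', ih]
      funext k₁ k₂ g
      have h1 : k₁ = 0 := Subsingleton.elim _ _
      have h2 : k₂ = 0 := Subsingleton.elim _ _
      subst h1 h2
      rw [pow_succ, conv]
      simp only [Finset.univ_unique, Fin.default_eq_zero, Finset.sum_singleton]
      refine finsum_congr fun h => ?_
      congr 1
      rw [hP, conv]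
      refine finsum_congr fun t => ?_
      simp only
      rw [mapInv]
      congr 2
      group
  unfold iter1 mom
  rw [key]
  simp [hP]

end Pool.Agent.H987D.T1a
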