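import Pool.Agent.H987D.Stm

/-!
Part T1b: the moments of the images stabilise along a descending sequence of normal subgroups with trivial intersection.
-/

set_option autoImplicit false
open MeasureTheory Filter Topology Set
open scoped Classical

namespace Pool.Agent.H987D.T1b

/-- the moment of an image is a coefficient of the image of the power -/
lemma mom_map {G K : Type} [Group G] [Group K] (f : G →* K) (a : G →₀ ℤ) (n : ℕ) :
    mom (a.mapDomain f) n = (Finsupp.mapDomain f
      ((MonoidAlgebra.ofCoeff a * MonoidAlgebra.ofCoeff (a.mapDomain (fun g => g⁻¹)) :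
        MonoidAlgebra ℤ G) ^ n).coeff) 1 := by
  have h1 : (Finsupp.mapDomain f a).mapDomain (fun g : K => g⁻¹) =
      (a.mapDomain (fun g : G => g⁻¹)).mapDomain f := by
    rw [← Finsupp.mapDomain_comp, ← Finsupp.mapDomain_comp]
    congr 1
    funext g
    simp
  unfold mom
  rw [h1]
  have h2 : (MonoidAlgebra.ofCoeff (Finsupp.mapDomain f a) *
      MonoidAlgebra.ofCoeff ((a.mapDomain (fun g : G => g⁻¹)).mapDomain f) : MonoidAlgebra ℤ K) =
      MonoidAlgebra.mapDomainRingHom ℤ f
        (MonoidAlgebra.ofCoeff a * MonoidAlgebra.ofCoeff (a.mapDomain (fun g => g⁻¹))) := by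
    rw [map_mul]
    rfl
  rw [h2, ← map_pow]
  rfl

theorem main : T1bP := by
  intro G _ N _ hN hbot a n
  set y : G →₀ ℤ := ((MonoidAlgebra.ofCoeff a * MonoidAlgebra.ofCoeff (a.mapDomain (fun g => g⁻¹)) :
        MonoidAlgebra ℤ G) ^ n).coeff with hy
  have h1 : ∀ g : G, g ≠ 1 → ∀ᶠ i in atTop, g ∉ N i := by
    intro g hg
    have h2 : ∃ i, g ∉ N i := by
      by_contra h
      push Not at h
      have h3 : g ∈ ⨅ i, N i := Subgroup.mem_iInf.2 h
      rw [hbot] at h3
      exact hg (Subgroup.mem_bot.1 h3)
    obtain ⟨i, hi⟩ := h2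
    filter_upwards [eventually_ge_atTop i] with j hj hgj
    exact hi (hN i j hj hgj)
  have h2 : ∀ᶠ i in atTop, ∀ g ∈ y.support, g ≠ 1 → g ∉ N i := by
    rw [eventually_all_finset]
    intro g _
    by_cases hg : g = 1
    · filter_upwards with i h
      exact absurd hg h
    · filter_upwards [h1 g hg] with i hi _
      exact hi
  filter_upwards [h2] with i hi
  rw [mom_map, ← hy]
  change _ = y 1
  rw [Finsupp.mapDomain, Finsupp.sum, Finsupp.finsetSum_apply]
  have h3 : ∀ g ∈ y.support, (Finsupp.single ((QuotientGroup.mk' (N i)) g) (y g)) 1 =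
      if g = 1 then y g else 0 := by
    intro g hg
    by_cases h : g = 1
    · subst h
      simp
    · rw [if_neg h, Finsupp.single_apply, if_neg]
      intro h4
      have h5 : (QuotientGroup.mk' (N i)) g = 1 := h4
      rw [← MonoidHom.mem_ker, QuotientGroup.ker_mk'] at h5
      exact hi g hg h h5
  rw [Finset.sum_congr rfl h3, Finset.sum_ite_eq']
  split_ifs with h
  · rfl
  · exact (Finsupp.notMem_support_iff.1 h).symm

end Pool.Agent.H987D.T1b
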