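import Pool.Agent.H987D.Stm

/-!
Part T1c: the l1 norm does not grow under images.
-/

set_option autoImplicit false
open MeasureTheory Filter Topology Set
open scoped Classical

namespace Pool.Agent.H987D.T1c

lemma l1_eq {G : Type} (a : G →₀ ℤ) (s : Finset G) (h : a.support ⊆ s) : l1 a = ∑ g ∈ s, |(a g : ℝ)| := by
  unfold l1
  refine Finset.sum_subset h fun g _ hg => ?_
  rw [Finsupp.notMem_support_iff.1 hg]
  simp

lemma l1_add {G : Type} (a b : G →₀ ℤ) : l1 (a + b) ≤ l1 a + l1 b := by
  rw [l1_eq (a + b) (a.support ∪ b.support) Finsupp.support_add,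
    l1_eq a (a.support ∪ b.support) Finset.subset_union_left,
    l1_eq b (a.support ∪ b.support) Finset.subset_union_right, ← Finset.sum_add_distrib]
  refine Finset.sum_le_sum fun g _ => ?_
  rw [Finsupp.add_apply]
  push_cast
  exact abs_add_le _ _

lemma l1_single {G : Type} (g : G) (r : ℤ) : l1 (Finsupp.single g r) = |(r : ℝ)| := by
  rw [l1_eq (Finsupp.single g r) {g} Finsupp.support_single_subset]
  simp

lemma l1_zero {G : Type} : l1 (0 : G →₀ ℤ) = 0 := by simp [l1]

theorem main : T1cP := by
  intro G H f a
  induction a using Finsupp.induction with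
  | zero => simp [l1_zero]
  | single_add g r a hg hr ih =>
    rw [Finsupp.mapDomain_add, Finsupp.mapDomain_single]
    refine (l1_add _ _).trans ?_
    have h1 : l1 (Finsupp.single g r + a) = l1 (Finsupp.single g r) + l1 a := by
      have h0 : a g = 0 := Finsupp.notMem_support_iff.1 hg
      rw [l1_eq (Finsupp.single g r + a) (insert g a.support), Finset.sum_insert hg, l1_single]
      · simp only [Finsupp.add_apply, Finsupp.single_eq_same, h0, add_zero]
        congr 1
        unfold l1
        refine Finset.sum_congr rfl fun x hx => ?_
        have hxg : g ≠ x := fun h => hg (h ▸ hx)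
        rw [Finsupp.single_apply, if_neg hxg, zero_add]
      · intro x hx
        by_cases hxg : x = g
        · rw [hxg]; exact Finset.mem_insert_self _ _
        · refine Finset.mem_insert_of_mem ?_
          rw [Finsupp.mem_support_iff] at hx ⊢
          rw [Finsupp.add_apply, Finsupp.single_apply, if_neg (Ne.symm hxg), zero_add] at hx
          exact hx
    rw [h1, l1_single, l1_single]
    linarith

end Pool.Agent.H987D.T1c
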