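import Pool.Agent.H987D.Stm

/-!
Spectral measure of b b^* for a finite group.
-/

set_option autoImplicit false
open MeasureTheory Filter Topology Set
open scoped Classical Matrix

namespace Pool.Agent.H987D.T2

/-- The matrix of right multiplication. -/
noncomputable def RC {H : Type} [Group H] (c : MonoidAlgebra ℤ H) : Matrix H H ℝ :=
  Matrix.of fun g h => (c.coeff (g⁻¹ * h) : ℝ)

lemma RC_mul {H : Type} [Group H] [Fintype H] (c d : MonoidAlgebra ℤ H) :
    RC (c * d) = RC c * RC d := by
  ext g h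
  simp only [RC, Matrix.of_apply, Matrix.mul_apply, MonoidAlgebra.coeff_mul_apply_left]
  rw [Finsupp.sum_fintype _ _ (by simp)]
  push_cast
  refine Fintype.sum_equiv (Equiv.mulLeft g) _ _ ?_
  intro i
  simp [mul_assoc]

lemma RC_one {H : Type} [Group H] : RC (1 : MonoidAlgebra ℤ H) = 1 := by
  ext g h
  simp only [RC, Matrix.of_apply, Matrix.one_apply, MonoidAlgebra.one_def,
    MonoidAlgebra.coeff_single, Finsupp.single_apply]
  by_cases hgh : g = h
  · subst hgh
    simp
  · have : ¬ ((1 : H) = g⁻¹ * h) := by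
      intro h1
      exact hgh (by rw [eq_inv_mul_iff_mul_eq] at h1; simpa using h1)
    rw [if_neg this, if_neg hgh]
    simp

lemma RC_pow {H : Type} [Group H] [Fintype H] (c : MonoidAlgebra ℤ H) (n : ℕ) :
    RC (c ^ n) = RC c ^ n := by
  induction n with
  | zero => simp [RC_one]
  | succ n ih => rw [pow_succ, pow_succ, RC_mul, ih]

lemma RM_eq {H : Type} [Group H] (b : H →₀ ℤ) : RM b = RC (MonoidAlgebra.ofCoeff b) := rfl

lemma RM_transpose {H : Type} [Group H] (b : H →₀ ℤ) :
    (RM b)ᵀ = RC (MonoidAlgebra.ofCoeff (b.mapDomain (fun g => g⁻¹))) := by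
  ext g h
  simp only [RM, RC, Matrix.transpose_apply, Matrix.of_apply]
  have h1 : g⁻¹ * h = (h⁻¹ * g)⁻¹ := by group
  rw [h1, Finsupp.mapDomain_apply inv_injective]

lemma RM_sq_pow {H : Type} [Group H] [Fintype H] (b : H →₀ ℤ) (n : ℕ) (g : H) :
    ((RM b * (RM b)ᵀ) ^ n) g g = (mom b n : ℝ) := by
  rw [RM_transpose, RM_eq, ← RC_mul, ← RC_pow]
  simp [RC, mom]

lemma trace_pow {m : Type} [Fintype m] {A : Matrix m m ℝ} (hA : A.IsHermitian) (n : ℕ) :
    (A ^ n).trace = ∑ i, (hA.eigenvalues i) ^ n := by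
  conv_lhs => rw [hA.spectral_theorem]
  rw [← map_pow, Unitary.conjStarAlgAut_apply, Matrix.diagonal_pow, Matrix.trace_mul_comm,
    ← mul_assoc]
  simp [Matrix.trace]

lemma row_sum {H : Type} [Group H] [Fintype H] (b : H →₀ ℤ) (g : H) :
    ∑ h, |RM b g h| = l1 b := by
  have h1 : l1 b = ∑ k : H, |((b k : ℤ) : ℝ)| := by
    rw [l1]
    refine Finset.sum_subset (Finset.subset_univ _) ?_
    intro x _ hx
    simp [Finsupp.notMem_support_iff.mp hx]
  rw [h1]
  refine Fintype.sum_equiv (Equiv.mulLeft g⁻¹) _ _ ?_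
  intro i
  simp [RM]

lemma col_sum {H : Type} [Group H] [Fintype H] (b : H →₀ ℤ) (h : H) :
    ∑ g, |RM b g h| = l1 b := by
  have h1 : l1 b = ∑ k : H, |((b k : ℤ) : ℝ)| := by
    rw [l1]
    refine Finset.sum_subset (Finset.subset_univ _) ?_
    intro x _ hx
    simp [Finsupp.notMem_support_iff.mp hx]
  rw [h1]
  refine Fintype.sum_equiv ((Equiv.inv H).trans (Equiv.mulRight h)) _ _ ?_
  intro i
  simp [RM]

lemma eig_le {H : Type} [Group H] [Fintype H] (b : H →₀ ℤ) {v : H → ℝ} {t : ℝ} (hv : v ≠ 0)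
    (h : (RM b * (RM b)ᵀ) *ᵥ v = t • v) : t ≤ l1 b ^ 2 := by
  have hne : Nonempty H := ⟨1⟩
  obtain ⟨i, hi⟩ := Finite.exists_max (fun i => |v i|)
  have hvi : 0 < |v i| := by
    obtain ⟨j, hj⟩ := Function.ne_iff.mp hv
    exact lt_of_lt_of_le (abs_pos.mpr hj) (hi j)
  have h1 : (∑ j, (∑ k, RM b i k * RM b j k) * v j) = t * v i := by
    have := congrFun h i
    simpa [Matrix.mulVec, dotProduct, Matrix.mul_apply] using this
  have h2 : |t| * |v i| ≤ l1 b ^ 2 * |v i| := by
    rw [← abs_mul, ← h1]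
    calc |∑ j, (∑ k, RM b i k * RM b j k) * v j|
        ≤ ∑ j, (∑ k, |RM b i k| * |RM b j k|) * |v i| := by
          refine (Finset.abs_sum_le_sum_abs _ _).trans (Finset.sum_le_sum fun j _ => ?_)
          rw [abs_mul]
          refine mul_le_mul ?_ (hi j) (abs_nonneg _) (by positivity)
          refine (Finset.abs_sum_le_sum_abs _ _).trans (le_of_eq ?_)
          exact Finset.sum_congr rfl fun k _ => abs_mul _ _
      _ = l1 b ^ 2 * |v i| := by
          rw [← Finset.sum_mul, Finset.sum_comm]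
          congr 1
          simp only [← Finset.mul_sum]
          simp only [col_sum]
          rw [← Finset.sum_mul, row_sum]
          ring
  exact (le_abs_self t).trans (le_of_mul_le_mul_right h2 hvi)

/-- Spectral measure of b b^*. -/
theorem main : T2P := by
  intro H _ _ b C hC hdet
  set A : Matrix H H ℝ := RM b * (RM b)ᵀ with hAdef
  have hpsd : A.PosSemidef := by
    have := Matrix.posSemidef_self_mul_conjTranspose (RM b)
    simpa [Matrix.conjTranspose_eq_transpose_of_trivial] using this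
  have hA : A.IsHermitian := hpsd.isHermitian
  have hdetA : A.det = (RM b).det ^ 2 := by
    rw [hAdef, Matrix.det_mul, Matrix.det_transpose]; ring
  have hprod : ∏ i, hA.eigenvalues i = (RM b).det ^ 2 := by
    rw [← hdetA, hA.det_eq_prod_eigenvalues]
    simp
  have hnn : ∀ i, 0 ≤ hA.eigenvalues i := fun i => hpsd.eigenvalues_nonneg i
  have hpos : ∀ i, 0 < hA.eigenvalues i := by
    intro i
    refine lt_of_le_of_ne (hnn i) ?_
    intro h0
    have : ∏ i, hA.eigenvalues i = 0 := Finset.prod_eq_zero (Finset.mem_univ i) h0.symm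
    rw [this] at hprod
    exact pow_ne_zero 2 hdet hprod.symm
  have hle : ∀ i, hA.eigenvalues i ≤ C := by
    intro i
    refine le_trans ?_ hC
    exact eig_le b (v := ⇑(hA.eigenvectorBasis i))
      ((WithLp.ofLp_eq_zero 2).ne.2 <| hA.eigenvectorBasis.orthonormal.ne_zero i)
      (hA.mulVec_eigenvectorBasis i)
  have hcard : (0 : ℝ) < Fintype.card H := by
    exact_mod_cast Fintype.card_pos_iff.mpr ⟨(1 : H)⟩
  set w : ENNReal := ENNReal.ofReal ((Fintype.card H : ℝ)⁻¹) with hw
  set ν : Measure ℝ := w • ∑ i : H, Measure.dirac (hA.eigenvalues i) with hν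
  have hint : ∀ f : ℝ → ℝ, ∫ x, f x ∂ν = (Fintype.card H : ℝ)⁻¹ * ∑ i, f (hA.eigenvalues i) := by
    intro f
    rw [hν, integral_smul_measure, integral_finsetSum_measure]
    · simp [hw]
    · intro i _
      exact integrable_dirac (by simp)
  have hInt : ∀ f : ℝ → ℝ, Integrable f ν := by
    intro f
    rw [hν]
    refine Integrable.smul_measure ?_ ENNReal.ofReal_ne_top
    rw [integrable_finsetSum_measure]
    intro i _
    exact integrable_dirac (by simp)
  have hνset : ∀ s : Set ℝ, MeasurableSet s → (∀ i, hA.eigenvalues i ∈ s) → ν sᶜ = 0 := by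
    intro s hs hi
    rw [hν]
    simp only [Measure.smul_apply, Measure.finsetSum_apply, smul_eq_mul]
    rw [Finset.sum_eq_zero, mul_zero]
    intro i _
    rw [Measure.dirac_apply' _ hs.compl]
    simp [hi i]
  refine ⟨ν, ?_, ?_, ?_, ?_, ?_⟩
  · constructor
    rw [hν]
    simp only [Measure.smul_apply, Measure.finsetSum_apply, smul_eq_mul, measure_univ,
      Finset.sum_const, Finset.card_univ, nsmul_eq_mul, mul_one]
    rw [hw, ENNReal.ofReal_inv_of_pos hcard, ENNReal.ofReal_natCast]
    exact ENNReal.inv_mul_cancel (by exact_mod_cast hcard.ne') (ENNReal.natCast_ne_top _)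
  · exact hνset _ measurableSet_Icc fun i => ⟨hnn i, hle i⟩
  · intro n
    rw [hint, ← trace_pow hA n, Matrix.trace]
    simp only [Matrix.diag_apply, hAdef, RM_sq_pow, Finset.sum_const, Finset.card_univ,
      nsmul_eq_mul]
    field_simp
  · exact (hInt _).integrableOn
  · have h1 : ∫ x in Ioi 0, Real.log x ∂ν = ∫ x, Real.log x ∂ν := by
      rw [Measure.restrict_eq_self_of_ae_mem]
      rw [ae_iff]
      exact hνset (Ioi 0) measurableSet_Ioi hpos
    rw [h1, hint, ← Real.log_prod (fun i _ => (hpos i).ne'), hprod, Real.log_pow,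
      Nat.card_eq_fintype_card, Real.log_abs]
    push_cast
    ring

end Pool.Agent.H987D.T2
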