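import Pool.Agent.H987D.Stm

/-!
T3: limit of measures on a compact interval with eventually constant moments.
-/

set_option autoImplicit false
open MeasureTheory Filter Topology Set
open scoped Classical

namespace Pool.Agent.H987D.T3

theorem main : T3P := by
  intro C ν hν hK m hm
  have hmass : ∀ i, ν i (Icc 0 C) = 1 := by
    intro i
    have := hν i
    exact (prob_compl_eq_zero_iff (μ := ν i) (s := Icc (0:ℝ) C) measurableSet_Icc).1 (hK i)
  have hemb : MeasurableEmbedding (Subtype.val : Icc (0:ℝ) C → ℝ) :=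
    MeasurableEmbedding.subtype_coe measurableSet_Icc
  have hpr : ∀ i, IsProbabilityMeasure ((ν i).comap (Subtype.val : Icc (0:ℝ) C → ℝ)) := by
    intro i
    refine ⟨?_⟩
    rw [hemb.comap_apply, image_univ, Subtype.range_coe]
    exact hmass i
  let ρ : ℕ → ProbabilityMeasure (Icc (0:ℝ) C) :=
    fun i => ⟨(ν i).comap (Subtype.val : Icc (0:ℝ) C → ℝ), hpr i⟩
  let U : Ultrafilter ℕ := Ultrafilter.of atTop
  obtain ⟨r, -, hr⟩ := (isCompact_univ (X := ProbabilityMeasure (Icc (0:ℝ) C))).ultrafilter_le_nhds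
    (U.map ρ) (by simp)
  have hr' : Tendsto ρ (U : Filter ℕ) (𝓝 r) := hr
  have hU : (U : Filter ℕ) ≤ atTop := Ultrafilter.of_le atTop
  refine ⟨(r : Measure (Icc (0:ℝ) C)).map Subtype.val, ?_, ?_, ?_⟩
  · exact Measure.isProbabilityMeasure_map hemb.measurable.aemeasurable
  · rw [Measure.map_apply hemb.measurable measurableSet_Icc.compl]
    have : (Subtype.val : Icc (0:ℝ) C → ℝ) ⁻¹' (Icc 0 C)ᶜ = ∅ := by
      ext x
      simp only [mem_preimage, mem_compl_iff, mem_empty_iff_false, iff_false, not_not]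
      exact x.2
    rw [this, measure_empty]
  · intro n
    rw [hemb.integral_map]
    let f : BoundedContinuousFunction (Icc (0:ℝ) C) ℝ :=
      BoundedContinuousFunction.mkOfCompact ⟨fun x => (x : ℝ) ^ n, by fun_prop⟩
    have h1 := (ProbabilityMeasure.tendsto_iff_forall_integral_tendsto.1 hr') f
    have h2 : ∀ i, ∫ ω, f ω ∂(ρ i : Measure (Icc (0:ℝ) C)) = ∫ x, x ^ n ∂(ν i) := by
      intro i
      have h3 : ∫ ω, f ω ∂(ρ i : Measure (Icc (0:ℝ) C)) = ∫ x in Icc 0 C, x ^ n ∂(ν i) :=
        integral_subtype_comap measurableSet_Icc (fun x : ℝ => x ^ n)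
      rw [h3, Measure.restrict_eq_self_of_ae_mem]
      exact (hK i)
    simp_rw [h2] at h1
    have h4 : Tendsto (fun i => ∫ x, x ^ n ∂(ν i)) (U : Filter ℕ) (𝓝 (m n)) := by
      refine Tendsto.mono_left ?_ hU
      refine Tendsto.congr' ?_ tendsto_const_nhds
      filter_upwards [hm n] with i hi
      exact hi.symm
    exact tendsto_nhds_unique h1 h4

end Pool.Agent.H987D.T3
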