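import Pool.Agent.H987D.Stm

/-!
Determinant of one plus a weighted cyclic shift of odd length.
-/

set_option autoImplicit false

namespace Pool.Agent.H987D.T4

theorem main : T4P := by
  intro n _ hn hodd f
  have : Fact (1 < n) := ⟨hn⟩
  have h10 : (1 : ZMod n) ≠ 0 := one_ne_zero
  rw [Matrix.det_apply]
  obtain ⟨τ, hτdef⟩ : ∃ τ : Equiv.Perm (ZMod n), τ = Equiv.addRight (-1) := ⟨_, rfl⟩
  have hτ : ∀ i, τ i = i - 1 := by
    intro i; rw [hτdef]; simp [sub_eq_add_neg]
  have hne : (1 : Equiv.Perm (ZMod n)) ≠ τ := by
    intro h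
    have h1 := congrArg (fun σ : Equiv.Perm (ZMod n) => σ 0) h
    simp only [Equiv.Perm.coe_one, id_eq, hτ] at h1
    apply h10
    calc (1 : ZMod n) = 0 - (0 - 1) := by ring
      _ = 0 := by rw [← h1]; ring
  have hsign : Equiv.Perm.sign τ = 1 := by
    have hk : ∀ (k : ℕ) (i : ZMod n), (τ ^ k) i = i - k := by
      intro k
      induction k with
      | zero => intro i; simp
      | succ k ih =>
        intro i
        rw [pow_succ, Equiv.Perm.mul_apply, ih, hτ]
        push_cast
        ring
    have h1 : τ ^ n = 1 := by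
      apply Equiv.ext
      intro i
      rw [hk, ZMod.natCast_self, sub_zero, Equiv.Perm.one_apply]
    have h2 : (Equiv.Perm.sign τ) ^ n = 1 := by rw [← map_pow, h1, map_one]
    rcases Int.units_eq_one_or (Equiv.Perm.sign τ) with h | h
    · exact h
    · rw [h, hodd.neg_one_pow] at h2
      exact absurd h2 (by decide)
  have hsub : ∀ σ ∈ (Finset.univ : Finset (Equiv.Perm (ZMod n))), σ ∉ ({1, τ} : Finset _) →
      Equiv.Perm.sign σ • ∏ i : ZMod n, (Matrix.of fun i j : ZMod n =>
        (if i = j then (1 : ℂ) else 0) + (if i + 1 = j then f i else 0)) (σ i) i = 0 := by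
    intro σ _ hσ
    rw [Finset.mem_insert, Finset.mem_singleton, not_or] at hσ
    have hex : ∃ i, σ i ≠ i ∧ σ i + 1 ≠ i := by
      by_contra hcon
      push Not at hcon
      apply hσ.2
      have hne1 : ∃ i₀, σ i₀ ≠ i₀ := by
        by_contra hc
        push Not at hc
        apply hσ.1
        ext i
        simp [hc i]
      obtain ⟨i₀, hi₀⟩ := hne1
      have hall : ∀ k : ℕ, σ (i₀ - k) = i₀ - k - 1 := by
        intro k
        induction k with
        | zero =>
          have := hcon i₀ hi₀
          rw [Nat.cast_zero, sub_zero]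
          exact eq_sub_of_add_eq this
        | succ k ih =>
          have h1 : σ (i₀ - ((k + 1 : ℕ) : ZMod n)) ≠ i₀ - ((k + 1 : ℕ) : ZMod n) := by
            intro h
            have h2 : σ (i₀ - ((k + 1 : ℕ) : ZMod n)) = σ (i₀ - k) := by
              rw [h, ih]; push_cast; ring
            have h3 := σ.injective h2
            apply h10
            have h4 : (1 : ZMod n) = (i₀ - k) - (i₀ - ((k + 1 : ℕ) : ZMod n)) := by
              push_cast; ring
            rw [h4, h3, sub_self]
          exact eq_sub_of_add_eq (hcon _ h1)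
      ext i
      rw [hτ]
      have hk : i = i₀ - (((i₀ - i).val : ℕ) : ZMod n) := by
        rw [ZMod.natCast_val, ZMod.cast_id]; ring
      have h5 := hall (i₀ - i).val
      rw [← hk] at h5
      rw [h5]
    obtain ⟨i, h1, h2⟩ := hex
    have h3 : ∏ i : ZMod n, (Matrix.of fun i j : ZMod n =>
        (if i = j then (1 : ℂ) else 0) + (if i + 1 = j then f i else 0)) (σ i) i = 0 := by
      apply Finset.prod_eq_zero (Finset.mem_univ i)
      simp only [Matrix.of_apply]
      rw [if_neg h1, if_neg h2, add_zero]
    rw [h3, smul_zero]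
  rw [← Finset.sum_subset (Finset.subset_univ ({1, τ} : Finset _)) hsub, Finset.sum_pair hne,
    hsign, Equiv.Perm.sign_one, one_smul, one_smul]
  congr 1
  · apply Finset.prod_eq_one
    intro i _
    have h1 : i + 1 ≠ i := by
      intro h
      apply h10
      calc (1 : ZMod n) = (i + 1) - i := by ring
        _ = 0 := by rw [h, sub_self]
    simp only [Matrix.of_apply, Equiv.Perm.coe_one, id_eq]
    rw [if_neg h1, if_true, add_zero]
  · rw [← Equiv.prod_comp τ f]
    apply Finset.prod_congr rfl
    intro i _
    have h1 : τ i ≠ i := by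
      intro h
      rw [hτ] at h
      apply h10
      calc (1 : ZMod n) = i - (i - 1) := by ring
        _ = 0 := by rw [h, sub_self]
    have h2 : τ i + 1 = i := by rw [hτ]; ring
    simp only [Matrix.of_apply]
    rw [if_neg h1, if_pos h2, zero_add]

end Pool.Agent.H987D.T4
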