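import Pool.Agent.H987D.Stm

/-!
T5: the group determinant, given T4.
-/

set_option autoImplicit false
open MeasureTheory Filter Topology Set
open scoped Classical

namespace Pool.Agent.H987D.T5

open ZMod

/-- index type -/
abbrev Ix (L n : ℕ) := ZMod n × (ZMod (L * n) × ZMod n)

section
variable (L n : ℕ) [NeZero (L * n)] [NeZero n]

/-- the matrix of characters -/
noncomputable def E : Matrix (Ix L n) (Ix L n) ℂ := Matrix.of fun a b =>
  if a.1 = b.1 then (stdAddChar (a.2.1 * b.2.1) : ℂ) * stdAddChar (a.2.2 * b.2.2) else 0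

/-- the inverse characters -/
noncomputable def E' : Matrix (Ix L n) (Ix L n) ℂ := Matrix.of fun a b =>
  if a.1 = b.1 then (stdAddChar (-(a.2.1 * b.2.1)) : ℂ) * stdAddChar (-(a.2.2 * b.2.2)) else 0

/-- the blocks -/
noncomputable def B (uv : ZMod (L * n) × ZMod n) : Matrix (ZMod n) (ZMod n) ℂ :=
  Matrix.of fun i j : ZMod n => (if i = j then (1 : ℂ) else 0) +
    (if i + 1 = j then ((wt L n uv.1 uv.2 i : ℝ) : ℂ) else 0)

/-- the matrix over the product -/
noncomputable def M : Matrix (Ix L n) (Ix L n) ℂ := Matrix.of fun a b =>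
  ((RM (aQ L n) ((HQ.eqv L n).symm a) ((HQ.eqv L n).symm b) : ℝ) : ℂ)

end

variable {L n : ℕ} [NeZero (L * n)] [NeZero n]

lemma sumchar (a b : ZMod (L * n) × ZMod n) :
    ∑ c : ZMod (L * n) × ZMod n, ((stdAddChar (-(a.1 * c.1)) : ℂ) * stdAddChar (-(a.2 * c.2))) *
      ((stdAddChar (c.1 * b.1) : ℂ) * stdAddChar (c.2 * b.2)) =
    if a = b then ((L * n : ℕ) : ℂ) * (n : ℂ) else 0 := by
  have h1 : ∀ c : ZMod (L * n) × ZMod n,
      ((stdAddChar (-(a.1 * c.1)) : ℂ) * stdAddChar (-(a.2 * c.2))) *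
      ((stdAddChar (c.1 * b.1) : ℂ) * stdAddChar (c.2 * b.2)) =
      (stdAddChar (c.1 * (b.1 - a.1)) : ℂ) * stdAddChar (c.2 * (b.2 - a.2)) := by
    intro c
    rw [show c.1 * (b.1 - a.1) = -(a.1 * c.1) + c.1 * b.1 by ring,
      show c.2 * (b.2 - a.2) = -(a.2 * c.2) + c.2 * b.2 by ring,
      AddChar.map_add_eq_mul, AddChar.map_add_eq_mul]
    ring
  rw [Finset.sum_congr rfl fun c _ => h1 c, Fintype.sum_prod_type]
  simp only
  rw [← Finset.sum_mul_sum, AddChar.sum_mulShift _ (isPrimitive_stdAddChar _),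
    AddChar.sum_mulShift _ (isPrimitive_stdAddChar _), ZMod.card, ZMod.card]
  by_cases h : a = b
  · subst h
    simp
  · rw [if_neg h]
    by_cases h2 : b.1 - a.1 = 0
    · have h3 : b.2 - a.2 ≠ 0 := fun h3 => h (Prod.ext (sub_eq_zero.1 h2).symm (sub_eq_zero.1 h3).symm)
      simp [h3]
    · simp [h2]

lemma EE (a b : Ix L n) : (E' L n * E L n) a b =
    if a = b then ((L * n : ℕ) : ℂ) * (n : ℂ) else 0 := by
  rw [Matrix.mul_apply, Fintype.sum_prod_type]
  have h1 : ∀ q : ZMod n, ∑ c : ZMod (L * n) × ZMod n, E' L n a (q, c) * E L n (q, c) b =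
      if a.1 = q then (if q = b.1 then (if a.2 = b.2 then ((L * n : ℕ) : ℂ) * (n : ℂ) else 0) else 0)
        else 0 := by
    intro q
    by_cases h : a.1 = q
    · by_cases h' : q = b.1
      · rw [if_pos h, if_pos h', ← sumchar]
        refine Finset.sum_congr rfl fun c _ => ?_
        simp only [E, E', Matrix.of_apply, if_pos h, if_pos h']
      · rw [if_pos h, if_neg h']
        refine Finset.sum_eq_zero fun c _ => ?_
        simp only [E, Matrix.of_apply, if_neg h', mul_zero]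
    · rw [if_neg h]
      refine Finset.sum_eq_zero fun c _ => ?_
      simp only [E', Matrix.of_apply, if_neg h, zero_mul]
  rw [Finset.sum_congr rfl fun q _ => h1 q, Finset.sum_ite_eq, if_pos (Finset.mem_univ _)]
  by_cases h : a = b
  · subst h; simp
  · rw [if_neg h]
    by_cases h2 : a.1 = b.1
    · rw [if_pos h2, if_neg (fun h3 => h (Prod.ext h2 h3))]
    · rw [if_neg h2]

lemma det_E : (E L n).det ≠ 0 := by
  have hc : ((L * n : ℕ) : ℂ) * (n : ℂ) ≠ 0 :=
    mul_ne_zero (Nat.cast_ne_zero.2 (NeZero.ne _)) (Nat.cast_ne_zero.2 (NeZero.ne _))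
  have h1 : E' L n * E L n = (((L * n : ℕ) : ℂ) * (n : ℂ)) • (1 : Matrix (Ix L n) (Ix L n) ℂ) := by
    ext a b
    rw [EE, Matrix.smul_apply, Matrix.one_apply, smul_eq_mul]
    split_ifs <;> simp
  intro h0
  have h2 := congrArg Matrix.det h1
  rw [Matrix.det_mul, h0, mul_zero, Matrix.det_smul, Matrix.det_one, mul_one] at h2
  exact pow_ne_zero _ hc h2.symm

omit [NeZero (L * n)] [NeZero n] in
lemma RM_apply (g h : HQ L n) : RM (aQ L n) g h =
    (if h = g then 1 else 0) + (if h = g * ⟨0, 1, 0⟩ then 10 else 0) +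
      (if h = g * ⟨1, 1, 0⟩ then -5 else 0) + (if h = g * ⟨-1, 1, 0⟩ then -5 else 0) := by
  have key : ∀ x : HQ L n, x = g⁻¹ * h ↔ h = g * x := by
    intro x
    constructor
    · rintro rfl; simp
    · rintro rfl; simp
  simp only [RM, Matrix.of_apply, aQ, Finsupp.add_apply, Finsupp.single_apply, key, mul_one]
  push_cast
  rfl

lemma wt_eq (u : ZMod (L * n)) (v q : ZMod n) :
    ((wt L n u v q : ℝ) : ℂ) = 10 - 5 * ((stdAddChar u : ℂ) * stdAddChar (v * q)) -
      5 * ((stdAddChar (-u) : ℂ) * stdAddChar (-(v * q))) := by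
  set θ : ℝ := 2 * Real.pi * ((u.val : ℝ) / (L * n : ℕ) + ((v * q).val : ℝ) / n) with hθ
  have h1 : (stdAddChar u : ℂ) * stdAddChar (v * q) = Complex.exp (θ * Complex.I) := by
    rw [stdAddChar_apply, stdAddChar_apply, toCircle_apply, toCircle_apply, ← Complex.exp_add]
    congr 1
    rw [hθ]
    push_cast
    ring
  have h2 : (stdAddChar (-u) : ℂ) * stdAddChar (-(v * q)) = Complex.exp (-(θ * Complex.I)) := by
    rw [AddChar.map_neg_eq_inv, AddChar.map_neg_eq_inv, ← mul_inv, h1, Complex.exp_neg]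
  rw [h1, h2]
  have h3 : ((wt L n u v q : ℝ) : ℂ) = 5 * (2 - 2 * Complex.cos (θ : ℂ)) := by
    rw [wt, ← hθ]
    push_cast
    rfl
  rw [h3, Complex.cos]
  rw [neg_mul]
  ring

lemma E_symm (g : HQ L n) (b : Ix L n) : E L n (HQ.eqv L n g) b =
    if g.y = b.1 then (stdAddChar (g.x * b.2.1) : ℂ) * stdAddChar (g.z * b.2.2) else 0 := rfl

lemma ME (a b : Ix L n) : (M L n * E L n) a b = (E L n * Matrix.blockDiagonal (B L n)) a b := by
  obtain ⟨g, rfl⟩ := (HQ.eqv L n).surjective a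
  -- left side
  have hl : (M L n * E L n) (HQ.eqv L n g) b =
      E L n (HQ.eqv L n g) b + 10 * E L n (HQ.eqv L n (g * ⟨0, 1, 0⟩)) b
        - 5 * E L n (HQ.eqv L n (g * ⟨1, 1, 0⟩)) b - 5 * E L n (HQ.eqv L n (g * ⟨-1, 1, 0⟩)) b := by
    rw [Matrix.mul_apply, ← (HQ.eqv L n).sum_comp]
    have hc : ∀ (p : Prop) (r : ℝ), ((if p then r else 0 : ℝ) : ℂ) = if p then (r : ℂ) else 0 := by
      intro p r; split_ifs <;> simp
    simp only [M, Matrix.of_apply, Equiv.symm_apply_apply, RM_apply, Complex.ofReal_add, hc]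
    simp only [add_mul, Finset.sum_add_distrib, ite_mul, zero_mul, Finset.sum_ite_eq',
      Finset.mem_univ, if_true]
    push_cast
    ring
  have hr : (E L n * Matrix.blockDiagonal (B L n)) (HQ.eqv L n g) b =
      ((stdAddChar (g.x * b.2.1) : ℂ) * stdAddChar (g.z * b.2.2)) * B L n b.2 g.y b.1 := by
    rw [Matrix.mul_apply, Fintype.sum_prod_type_right]
    have h1 : ∀ c : ZMod (L * n) × ZMod n, ∑ q : ZMod n,
        E L n (HQ.eqv L n g) (q, c) * Matrix.blockDiagonal (B L n) (q, c) b =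
        if c = b.2 then ((stdAddChar (g.x * c.1) : ℂ) * stdAddChar (g.z * c.2)) * B L n c g.y b.1
          else 0 := by
      intro c
      obtain ⟨b1, b2⟩ := b
      by_cases h : c = b2
      · simp only [Matrix.blockDiagonal_apply, h, if_true, E_symm, ite_mul, zero_mul,
          Finset.sum_ite_eq, Finset.mem_univ]
      · simp only [Matrix.blockDiagonal_apply, h, if_false, mul_zero, Finset.sum_const_zero]
    rw [Finset.sum_congr rfl fun c _ => h1 c, Finset.sum_ite_eq', if_pos (Finset.mem_univ _)]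
  rw [hl, hr]
  simp only [E_symm, HQ.mul_x, HQ.mul_y, HQ.mul_z, B, Matrix.of_apply, wt_eq, map_zero, map_one,
    map_neg, mul_zero, mul_one, add_zero, mul_neg]
  have e1 : (stdAddChar ((g.x + 1) * b.2.1) : ℂ) = stdAddChar (g.x * b.2.1) * stdAddChar b.2.1 := by
    rw [add_mul, one_mul, AddChar.map_add_eq_mul]
  have e2 : (stdAddChar ((g.z + g.y) * b.2.2) : ℂ) =
      stdAddChar (g.z * b.2.2) * stdAddChar (b.2.2 * g.y) := by
    rw [add_mul, AddChar.map_add_eq_mul, mul_comm g.y]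
  have e3 : (stdAddChar ((g.x + -1) * b.2.1) : ℂ) =
      stdAddChar (g.x * b.2.1) * stdAddChar (-b.2.1) := by
    rw [add_mul, neg_one_mul, AddChar.map_add_eq_mul]
  have e4 : (stdAddChar ((g.z + -g.y) * b.2.2) : ℂ) =
      stdAddChar (g.z * b.2.2) * stdAddChar (-(b.2.2 * g.y)) := by
    rw [add_mul, AddChar.map_add_eq_mul, neg_mul, mul_comm g.y]
  rw [e1, e2, e3, e4]
  split_ifs <;> ring

theorem main (h4 : T4P) : T5P := by
  intro L n _ _ hn hodd
  have h1 : (M L n).det = (((RM (aQ L n)).det : ℝ) : ℂ) := by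
    have h2 : M L n = ((Complex.ofRealHom.mapMatrix (RM (aQ L n))).submatrix (HQ.eqv L n).symm
        (HQ.eqv L n).symm) := rfl
    rw [h2, Matrix.det_submatrix_equiv_self, ← RingHom.map_det]
    rfl
  have h3 : M L n * E L n = E L n * Matrix.blockDiagonal (B L n) := by
    ext a b
    exact ME a b
  have h5 := congrArg Matrix.det h3
  rw [Matrix.det_mul, Matrix.det_mul, mul_comm] at h5
  have h6 := mul_left_cancel₀ det_E h5
  rw [h1, Matrix.det_blockDiagonal] at h6
  have h7 : ∀ p : ZMod (L * n) × ZMod n, (B L n p).det =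
      (((1 + ∏ q : ZMod n, wt L n p.1 p.2 q : ℝ)) : ℂ) := by
    intro p
    rw [B, h4 n hn hodd]
    push_cast
    rfl
  rw [Finset.prod_congr rfl fun p _ => h7 p] at h6
  have h8 : (((RM (aQ L n)).det : ℝ) : ℂ) =
    ((∏ p : ZMod (L * n) × ZMod n, (1 + ∏ q : ZMod n, wt L n p.1 p.2 q) : ℝ) : ℂ) := by
    rw [h6]
    push_cast
    rfl
  exact Complex.ofReal_injective h8

end Pool.Agent.H987D.T5
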