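import Pool.Agent.H987D.Stm

/-!
First chain: upper bound for the product.
-/

set_option autoImplicit false

namespace Pool.Agent.H987D.T6a

theorem wt_nonneg (L n : ℕ) (u : ZMod (L * n)) (v q : ZMod n) : 0 ≤ wt L n u v q := by
  unfold wt
  have := Real.cos_le_one
    (2 * Real.pi * ((u.val : ℝ) / (L * n : ℕ) + ((v * q).val : ℝ) / n))
  linarith

theorem wt_le (L n : ℕ) (u : ZMod (L * n)) (v q : ZMod n) : wt L n u v q ≤ 20 := by
  unfold wt
  have := Real.neg_one_le_cos
    (2 * Real.pi * ((u.val : ℝ) / (L * n : ℕ) + ((v * q).val : ℝ) / n))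
  linarith

theorem pow_aux (n : ℕ) (hn : 1 ≤ n) : 1 + (20 : ℝ) ^ n ≤ 21 ^ n := by
  induction n, hn using Nat.le_induction with
  | base => norm_num
  | succ n hn ih =>
    have h1 : (0 : ℝ) ≤ 20 ^ n := by positivity
    rw [pow_succ, pow_succ]
    nlinarith

theorem prod_le (n : ℕ) [NeZero n] (hn : 1 ≤ n) (u : ZMod (1 * n)) (v : ZMod n) :
    1 + ∏ q : ZMod n, wt 1 n u v q ≤ 21 ^ n := by
  have h1 : ∏ q : ZMod n, wt 1 n u v q ≤ ∏ _q : ZMod n, (20 : ℝ) :=
    Finset.prod_le_prod (fun q _ => wt_nonneg 1 n u v q) (fun q _ => wt_le 1 n u v q)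
  rw [Finset.prod_const, Finset.card_univ, ZMod.card] at h1
  have h2 := pow_aux n hn
  linarith

theorem prod_eq_one (n : ℕ) [NeZero (1 * n)] [NeZero n] (u : ZMod (1 * n)) (v : ZMod n)
    (hv : IsUnit v) : 1 + ∏ q : ZMod n, wt 1 n u v q = 1 := by
  obtain ⟨w, hw⟩ := hv.exists_right_inv
  have hn0 : (n : ℝ) ≠ 0 := by exact_mod_cast NeZero.ne n
  have h0 : ∏ q : ZMod n, wt 1 n u v q = 0 := by
    apply Finset.prod_eq_zero (Finset.mem_univ (w * (-((u.val : ℕ) : ZMod n))))
    have h1 : v * (w * (-((u.val : ℕ) : ZMod n))) = -((u.val : ℕ) : ZMod n) := by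
      rw [← mul_assoc, hw, one_mul]
    obtain ⟨a, ha⟩ : ∃ a, a = v * (w * (-((u.val : ℕ) : ZMod n))) := ⟨_, rfl⟩
    have h2 : ((u.val + a.val : ℕ) : ZMod n) = 0 := by
      rw [Nat.cast_add, ZMod.natCast_val a, ZMod.cast_id, ha, h1, add_neg_cancel]
    rw [ZMod.natCast_eq_zero_iff] at h2
    obtain ⟨k, hk⟩ := h2
    unfold wt
    rw [← ha]
    have h3 : 2 * Real.pi * ((u.val : ℝ) / ((1 * n : ℕ) : ℝ) + (a.val : ℝ) / n)
        = (k : ℝ) * (2 * Real.pi) := by
      have h4 : ((u.val : ℝ) + (a.val : ℝ)) = n * k := by exact_mod_cast hk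
      have h5 : ((1 * n : ℕ) : ℝ) = n := by rw [one_mul]
      rw [h5, ← add_div, h4]
      field_simp
    rw [h3, Real.cos_nat_mul_two_pi]
    norm_num
  rw [h0, add_zero]

theorem main : T6aP := by
  intro n j _ _ hn
  have hn1 : 1 ≤ n := Nat.one_le_iff_ne_zero.2 (NeZero.ne n)
  have hstep : ∀ p : ZMod (1 * n) × ZMod n, (1 + ∏ q : ZMod n, wt 1 n p.1 p.2 q) ≤
      (if 5 ∣ p.2.val then (21 : ℝ) ^ n else 1) := by
    intro p
    split_ifs with h
    · exact prod_le n hn1 p.1 p.2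
    · apply le_of_eq
      apply prod_eq_one
      have h1 : Nat.Coprime p.2.val n := by
        have h6 : ∀ m : ℕ, ¬ 5 ∣ m → Nat.Coprime m n := by
          intro m hm
          rw [hn]
          apply Nat.Coprime.pow_right
          exact ((Nat.Prime.coprime_iff_not_dvd (by norm_num)).2 hm).symm
        exact h6 _ h
      have h2 := (ZMod.isUnit_iff_coprime p.2.val n).2 h1
      rwa [ZMod.natCast_val, ZMod.cast_id] at h2
  refine le_trans (Finset.prod_le_prod (fun p _ => ?_) (fun p _ => hstep p)) ?_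
  · have : 0 ≤ ∏ q : ZMod n, wt 1 n p.1 p.2 q :=
      Finset.prod_nonneg (fun q _ => wt_nonneg 1 n p.1 p.2 q)
    linarith
  obtain ⟨g, hg⟩ : ∃ g : ZMod n → ℝ, g = fun v => if 5 ∣ v.val then (21 : ℝ) ^ n else 1 := ⟨_, rfl⟩
  have hprod : (∏ p : ZMod (1 * n) × ZMod n, (if 5 ∣ p.2.val then (21 : ℝ) ^ n else 1)) =
      (∏ y : ZMod n, g y) ^ (1 * n) := by
    have h1 : (∏ p : ZMod (1 * n) × ZMod n, (if 5 ∣ p.2.val then (21 : ℝ) ^ n else 1)) =
        ∏ _x : ZMod (1 * n), ∏ y : ZMod n, g y := by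
      rw [Fintype.prod_prod_type, hg]
    rw [h1, Finset.prod_const, Finset.card_univ, ZMod.card]
  have hg2 : (∏ y : ZMod n, g y) =
      (21 : ℝ) ^ (n * (Finset.univ.filter (fun v : ZMod n => 5 ∣ v.val)).card) := by
    rw [hg, Finset.prod_ite, Finset.prod_const, Finset.prod_const_one, mul_one, ← pow_mul]
  rw [hprod, hg2, ← pow_mul]
  have hcard : (Finset.univ.filter (fun v : ZMod n => 5 ∣ v.val)).card ≤ 5 ^ j := by
    have h1 : (Finset.univ.filter (fun v : ZMod n => 5 ∣ v.val)).card ≤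
        (Finset.range (5 ^ j)).card := by
      apply Finset.card_le_card_of_injOn (fun v => v.val / 5)
      · intro v hv
        rw [Finset.mem_coe, Finset.mem_filter] at hv
        rw [Finset.mem_coe, Finset.mem_range]
        have h2 := ZMod.val_lt v
        rw [Nat.div_lt_iff_lt_mul (by norm_num)]
        calc v.val < n := h2
          _ = 5 ^ j * 5 := by rw [hn, pow_succ]
      · intro v hv w hw hvw
        rw [Finset.mem_coe, Finset.mem_filter] at hv hw
        have h3 : v.val = w.val := by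
          obtain ⟨a, ha⟩ := hv.2
          obtain ⟨b, hb⟩ := hw.2
          simp only at hvw
          omega
        exact ZMod.val_injective n h3
    rwa [Finset.card_range] at h1
  apply pow_le_pow_right₀ (by norm_num)
  calc n * (Finset.univ.filter (fun v : ZMod n => 5 ∣ v.val)).card * (1 * n)
      ≤ n * 5 ^ j * (1 * n) := by gcongr
    _ = n * n * 5 ^ j := by ring

end Pool.Agent.H987D.T6a
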