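import Pool.Agent.H987D.Stm

/-!
T6b: the lower bound along the second chain.
-/

set_option autoImplicit false
open MeasureTheory Filter Topology Set
open scoped Classical

namespace Pool.Agent.H987D.T6b

lemma wt_nonneg (L n : ℕ) (u : ZMod (L * n)) (v q : ZMod n) : 0 ≤ wt L n u v q := by
  unfold wt
  nlinarith [Real.cos_le_one (2 * Real.pi * ((u.val : ℝ) / (L * n : ℕ) + ((v * q).val : ℝ) / n))]

/-- product over the residues of a function of the representative -/
lemma prod_zmod (n : ℕ) [NeZero n] (F : ℕ → ℝ) :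
    ∏ q : ZMod n, F q.val = ∏ k ∈ Finset.range n, F k := by
  obtain ⟨m, rfl⟩ : ∃ m, n = m + 1 := ⟨n - 1, by have := NeZero.pos n; omega⟩
  rw [Finset.prod_range]
  rfl

lemma two_sub_cos (t : ℝ) :
    2 - 2 * Real.cos t = Complex.normSq (1 - Complex.exp (t * Complex.I)) := by
  rw [Complex.exp_mul_I, Complex.normSq_apply]
  simp only [Complex.sub_re, Complex.one_re, Complex.add_re, Complex.mul_re, Complex.I_re,
    Complex.I_im, Complex.sub_im, Complex.one_im, Complex.add_im, Complex.mul_im,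
    Complex.cos_ofReal_re, Complex.cos_ofReal_im, Complex.sin_ofReal_re, Complex.sin_ofReal_im]
  nlinarith [Real.sin_sq_add_cos_sq t]

/-- the classical product of sines -/
lemma prod_cos (n : ℕ) [NeZero n] (a : ℝ) :
    ∏ k ∈ Finset.range n, (2 - 2 * Real.cos (2 * Real.pi * (a + (k : ℝ) / n)))
      = 2 - 2 * Real.cos (2 * Real.pi * (n * a)) := by
  have hn : (n : ℂ) ≠ 0 := by exact_mod_cast NeZero.ne n
  have hn' : (n : ℝ) ≠ 0 := by exact_mod_cast NeZero.ne n
  have hz := Complex.isPrimitiveRoot_exp n (NeZero.ne n)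
  have h := X_pow_sub_C_eq_prod hz (α := Complex.exp ((2 * Real.pi * a : ℝ) * Complex.I))
    (NeZero.pos n) rfl
  have h1 := congrArg (Polynomial.eval 1) h
  rw [Polynomial.eval_prod] at h1
  simp only [Polynomial.eval_sub, Polynomial.eval_pow, Polynomial.eval_X, Polynomial.eval_C,
    one_pow] at h1
  rw [two_sub_cos]
  have e1 : Complex.exp ((2 * Real.pi * (n * a) : ℝ) * Complex.I)
      = Complex.exp ((2 * Real.pi * a : ℝ) * Complex.I) ^ n := by
    rw [← Complex.exp_nat_mul]
    congr 1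
    push_cast
    ring
  rw [e1, h1, map_prod]
  refine Finset.prod_congr rfl fun k _ => ?_
  rw [two_sub_cos, ← Complex.exp_nat_mul, ← Complex.exp_add]
  congr 3
  push_cast
  field_simp
  ring

/-- the product of the weights for u odd and v a unit -/
lemma prod_wt (n : ℕ) [NeZero n] [NeZero (2 * n)] (u : ZMod (2 * n)) (v : ZMod n)
    (hu : Odd u.val) (hv : IsUnit v) : ∏ q : ZMod n, wt 2 n u v q = 4 * 5 ^ n := by
  obtain ⟨w, rfl⟩ := hv
  have hn' : (n : ℝ) ≠ 0 := by exact_mod_cast NeZero.ne n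
  have h1 : ∏ q : ZMod n, wt 2 n u (w : ZMod n) q
      = ∏ q : ZMod n, (5 * (2 - 2 * Real.cos (2 * Real.pi * ((u.val : ℝ) / (2 * n : ℕ)
        + (q.val : ℝ) / n)))) := by
    refine Fintype.prod_equiv (Units.mulLeft w) _ _ fun q => ?_
    simp only [wt, Units.mulLeft_apply]
  rw [h1, prod_zmod n (fun k => 5 * (2 - 2 * Real.cos (2 * Real.pi * ((u.val : ℝ) / (2 * n : ℕ)
        + (k : ℝ) / n)))), Finset.prod_mul_distrib, prod_cos, Finset.prod_const,
    Finset.card_range]
  obtain ⟨m, hm⟩ := hu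
  have h2 : 2 * Real.pi * (n * ((u.val : ℝ) / (2 * n : ℕ))) = m * (2 * Real.pi) + Real.pi := by
    rw [hm]
    push_cast
    field_simp
  rw [h2, Real.cos_add_pi, Real.cos_nat_mul_two_pi]
  ring

theorem main : T6bP := by
  intro n j _ _ hn
  have hnpos : 0 < n := NeZero.pos n
  let g : Fin n × (ZMod n)ˣ → ZMod (2 * n) × ZMod n :=
    fun p => (((2 * (p.1 : ℕ) + 1 : ℕ) : ZMod (2 * n)), (p.2 : ZMod n))
  have hval : ∀ k : Fin n, (((2 * (k : ℕ) + 1 : ℕ) : ZMod (2 * n))).val = 2 * (k : ℕ) + 1 := by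
    intro k
    rw [ZMod.val_natCast, Nat.mod_eq_of_lt]
    have := k.2
    omega
  have hinj : Function.Injective g := by
    intro p p' h
    have h1 := congrArg (fun x => (x.1).val) h
    have h2 := congrArg Prod.snd h
    simp only [g] at h1 h2
    rw [hval, hval] at h1
    refine Prod.ext (Fin.ext (by omega)) (Units.ext h2)
  let S : Finset (ZMod (2 * n) × ZMod n) := Finset.univ.image g
  have hcard : S.card = n * (4 * 5 ^ j) := by
    rw [Finset.card_image_of_injective _ hinj, Finset.card_univ, Fintype.card_prod,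
      Fintype.card_fin, ZMod.card_units_eq_totient, hn, Nat.totient_prime_pow_succ (by norm_num)]
    ring
  have hfac : ∀ p : ZMod (2 * n) × ZMod n, 1 ≤ 1 + ∏ q : ZMod n, wt 2 n p.1 p.2 q := by
    intro p
    have : 0 ≤ ∏ q : ZMod n, wt 2 n p.1 p.2 q := Finset.prod_nonneg fun q _ => wt_nonneg _ _ _ _ _
    linarith
  have hS : ∀ p ∈ S, (5 : ℝ) ^ n ≤ 1 + ∏ q : ZMod n, wt 2 n p.1 p.2 q := by
    intro p hp
    obtain ⟨k, -, rfl⟩ := Finset.mem_image.1 hp
    rw [prod_wt n _ _ (by rw [hval]; exact ⟨k.1, rfl⟩) (Units.isUnit k.2)]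
    have : (0:ℝ) < 5 ^ n := by positivity
    linarith
  calc (5 : ℝ) ^ (n * n * (4 * 5 ^ j)) = ∏ p ∈ S, (5 : ℝ) ^ n := by
        rw [Finset.prod_const, hcard, ← pow_mul]
        congr 1
        ring
    _ = ∏ p : ZMod (2 * n) × ZMod n, (if p ∈ S then (5 : ℝ) ^ n else 1) := by
        rw [Finset.prod_ite_mem, Finset.univ_inter]
    _ ≤ ∏ p : ZMod (2 * n) × ZMod n, (1 + ∏ q : ZMod n, wt 2 n p.1 p.2 q) := by
        refine Finset.prod_le_prod (fun p _ => ?_) (fun p _ => ?_)
        · split_ifs <;> positivity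
        · split_ifs with h
          · exact hS p h
          · exact hfac p

end Pool.Agent.H987D.T6b
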