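import Pool.Agent.H987D.Stm

set_option autoImplicit false
open MeasureTheory Filter Topology Set
open scoped Classical

namespace Pool.Agent.H987D.T7

lemma mem_ker_ph (L n : ℕ) (g : HZ) :
    g ∈ (ph L n).ker ↔ ((L * n : ℕ) : ℤ) ∣ g.x ∧ (n : ℤ) ∣ g.y ∧ (n : ℤ) ∣ g.z := by
  rw [MonoidHom.mem_ker, HQ.ext_iff]
  simp only [ph, MonoidHom.coe_mk, OneHom.coe_mk, HQ.one_x, HQ.one_y, HQ.one_z]
  rw [ZMod.intCast_zmod_eq_zero_iff_dvd, ZMod.intCast_zmod_eq_zero_iff_dvd, ZMod.intCast_zmod_eq_zero_iff_dvd]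

theorem t7a : T7aP := by
  intro L i j hij g hg
  rw [mem_ker_ph] at hg ⊢
  have h5 : (5 ^ (i + 1) : ℕ) ∣ 5 ^ (j + 1) := pow_dvd_pow 5 (by omega)
  have hL : L * 5 ^ (i + 1) ∣ L * 5 ^ (j + 1) := Nat.mul_dvd_mul_left L h5
  exact ⟨(Int.natCast_dvd_natCast.mpr hL).trans hg.1, (Int.natCast_dvd_natCast.mpr h5).trans hg.2.1,
    (Int.natCast_dvd_natCast.mpr h5).trans hg.2.2⟩

lemma eq_zero_of_forall_dvd (a : ℤ) (h : ∀ j : ℕ, ((5 ^ (j + 1) : ℕ) : ℤ) ∣ a) : a = 0 := by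
  by_contra ha
  have h1 := Int.natAbs_dvd_natAbs.mpr (h a.natAbs)
  simp only [Int.natAbs_natCast] at h1
  have h2 := Nat.le_of_dvd (Int.natAbs_pos.mpr ha) h1
  have h3 : a.natAbs < 5 ^ a.natAbs := Nat.lt_pow_self (by norm_num)
  have h4 : 5 ^ a.natAbs ≤ 5 ^ (a.natAbs + 1) := Nat.pow_le_pow_right (by norm_num) (by omega)
  omega

theorem t7b : T7bP := by
  intro L hL
  rw [eq_bot_iff]
  intro g hg
  rw [Subgroup.mem_iInf] at hg
  simp only [mem_ker_ph] at hg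
  rw [Subgroup.mem_bot]
  ext
  · apply eq_zero_of_forall_dvd
    intro j
    exact (Int.natCast_dvd_natCast.mpr (dvd_mul_left (5 ^ (j + 1)) L)).trans (hg j).1
  · apply eq_zero_of_forall_dvd
    intro j
    exact (hg j).2.1
  · apply eq_zero_of_forall_dvd
    intro j
    exact (hg j).2.2

lemma ph_surj (L n : ℕ) : Function.Surjective (ph L n) := by
  intro g
  obtain ⟨x, hx⟩ := ZMod.intCast_surjective g.x
  obtain ⟨y, hy⟩ := ZMod.intCast_surjective g.y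
  obtain ⟨z, hz⟩ := ZMod.intCast_surjective g.z
  exact ⟨⟨x, y, z⟩, by ext <;> simp [ph, hx, hy, hz]⟩

lemma map_aZ (L n : ℕ) : aZ.mapDomain (ph L n) = aQ L n := by
  unfold aZ aQ
  rw [Finsupp.mapDomain_add, Finsupp.mapDomain_add, Finsupp.mapDomain_add,
    Finsupp.mapDomain_single, Finsupp.mapDomain_single, Finsupp.mapDomain_single,
    Finsupp.mapDomain_single]
  have e1 : ph L n 1 = 1 := map_one _
  have e2 : ph L n ⟨0, 1, 0⟩ = ⟨0, 1, 0⟩ := by ext <;> simp [ph]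
  have e3 : ph L n ⟨1, 1, 0⟩ = ⟨1, 1, 0⟩ := by ext <;> simp [ph]
  have e4 : ph L n ⟨-1, 1, 0⟩ = ⟨-1, 1, 0⟩ := by ext <;> simp [ph]
  rw [e1, e2, e3, e4]

/-- the matrix of right multiplication is transported by an isomorphism -/
lemma RM_equiv {H K : Type} [Group H] [Group K] (e : H ≃* K) (b : H →₀ ℤ) (c : K →₀ ℤ)
    (h : b.mapDomain e = c) : RM b = (RM c).submatrix e e := by
  ext g g'
  simp only [RM, Matrix.of_apply, Matrix.submatrix_apply]
  rw [← map_inv, ← map_mul, ← h]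
  rw [Finsupp.mapDomain_apply e.injective]

theorem t7c : T7cP := by
  intro L n _ _ _
  let e : HZ ⧸ (ph L n).ker ≃* HQ L n :=
    QuotientGroup.quotientKerEquivOfSurjective (ph L n) (ph_surj L n)
  refine ⟨?_, ?_, ?_⟩
  · have h : (aZ.mapDomain (QuotientGroup.mk' (ph L n).ker)).mapDomain e = aQ L n := by
      rw [← Finsupp.mapDomain_comp, ← map_aZ]
      rfl
    rw [RM_equiv e _ _ h]
    exact Matrix.det_submatrix_equiv_self e.toEquiv (RM (aQ L n))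
  · rw [Nat.card_congr (e.toEquiv.trans (HQ.eqv L n)), Nat.card_prod, Nat.card_prod,
      Nat.card_zmod, Nat.card_zmod]
    ring
  · infer_instance

end Pool.Agent.H987D.T7
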